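import Pool.Agent.MP_6b5009_co.SpMain

/-! The exact set of values of the defect `χ^(k) + χ - χ^(k+1)` of `k`-saturated graphs. -/

set_option autoImplicit false

namespace Pool.Agent.Results.MP_6b5009_co.DefectSpectrum

open Pool.Agent.MP_6b5009_co.Sp

/-- For `k ≥ 1` and `m ≥ 2 k`, the number `d` is the defect of a `k`-saturated graph whose `k`-fold
chromatic number is `m` exactly when `d ≤ m + 2 - 2 k - ⌈m / k⌉`, and then it is the defect of a
connected such graph with `χ^(k+1) = m + ⌈m / k⌉` and `χ = ⌈m / k⌉ + d`. -/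
theorem result (k m d : ℕ) (hk : 1 ≤ k) (hm : 2 * k ≤ m) :
    List.TFAE
      [∃ (V : Type) (_ : Fintype V) (G : SimpleGraph V), Saturated G k ∧ chi G k = m ∧
          ((chi G (k + 1) : ℕ∞) + (d : ℕ∞) = (chi G k : ℕ∞) + G.chromaticNumber),
        ∃ (V : Type) (_ : Fintype V) (G : SimpleGraph V), G.Connected ∧ Saturated G k ∧
          chi G k = m ∧ chi G (k + 1) = m + ⌈(m : ℚ) / (k : ℚ)⌉₊ ∧
          G.chromaticNumber = ((⌈(m : ℚ) / (k : ℚ)⌉₊ + d : ℕ) : ℕ∞),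
        d + ⌈(m : ℚ) / (k : ℚ)⌉₊ + 2 * k ≤ m + 2] := by
  tfae_have 1 → 3 := fun ⟨_, _, _, h1, h2, h3⟩ => upper hk hm h1 h2 h3
  tfae_have 3 → 2 := lower hk hm
  tfae_have 2 → 1 := fun ⟨V, i, G, _, h1, h2, h3, h4⟩ => ⟨V, i, G, h1, h2, by
    rw [h2, h3, h4]
    push_cast
    ring⟩
  tfae_finish

end Pool.Agent.Results.MP_6b5009_co.DefectSpectrum
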